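import Mathlib

/-! Project MT (MP_b8862a_ag), block (P): two blocks of a Lie algebra which contains a reflection. -/

set_option autoImplicit false
set_option linter.unusedSectionVars false
set_option linter.unusedSimpArgs false
set_option linter.unusedVariables false

namespace Pool.Agent.Helper75.MT

open Module

section ideal

variable {L : Type*} [Field L] [CharZero L] {n : Type*} [Fintype n] [DecidableEq n]

open Matrix in
/-- the part of `x` in the row `i` and the column `j` -/
theorem mat_part (I : Submodule L (Matrix n n L))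
    (hI : ∀ x ∈ I, ∀ y : Matrix n n L, x * y - y * x ∈ I) {x : Matrix n n L} (hx : x ∈ I) {i j : n}
    (hij : i ≠ j) : single i j (x i j) ∈ I := by
  have he : single i i (1 : L) * single j j 1 = 0 := single_mul_single_of_ne _ _ _ _ hij _
  have hf : single j j (1 : L) * single i i 1 = 0 := single_mul_single_of_ne _ _ _ _ hij.symm _
  have hee : single i i (1 : L) * single i i 1 = single i i 1 := by
    rw [single_mul_single_same, one_mul]
  obtain ⟨e, he0⟩ : ∃ e, e = single i i (1 : L) := ⟨_, rfl⟩
  obtain ⟨f, hf0⟩ : ∃ f, f = single j j (1 : L) := ⟨_, rfl⟩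
  rw [← he0, ← hf0] at he hf
  rw [← he0] at hee
  have h1 : x * e - e * x ∈ I := hI x hx e
  have h2 := hI _ h1 f
  have e2 : (x * e - e * x) * f - f * (x * e - e * x) = -(e * x * f) - f * x * e := by
    have a1 : x * e * f = 0 := by rw [mul_assoc, he, mul_zero]
    have a2 : f * (e * x) = 0 := by rw [← mul_assoc, hf, zero_mul]
    rw [sub_mul, mul_sub, a1, a2, ← mul_assoc]
    abel
  rw [e2] at h2
  have h3 := hI _ h2 e
  have e3 : (-(e * x * f) - f * x * e) * e - e * (-(e * x * f) - f * x * e) =
      e * x * f - f * x * e := by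
    have a1 : e * x * f * e = 0 := by rw [mul_assoc _ f e, hf, mul_zero]
    have a2 : f * x * e * e = f * x * e := by rw [mul_assoc _ e e, hee]
    have a3 : e * (e * x * f) = e * x * f := by rw [← mul_assoc, ← mul_assoc, hee]
    have a4 : e * (f * x * e) = 0 := by rw [← mul_assoc, ← mul_assoc, he, zero_mul, zero_mul]
    rw [sub_mul, neg_mul, mul_sub, mul_neg, a1, a2, a3, a4]
    abel
  rw [e3] at h3
  have h4 := I.smul_mem (2⁻¹ : L) (I.sub_mem h3 h2)
  have e4 : (2⁻¹ : L) • (e * x * f - f * x * e - (-(e * x * f) - f * x * e)) = e * x * f := by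
    have a : e * x * f - f * x * e - (-(e * x * f) - f * x * e) = (2 : L) • (e * x * f) := by
      rw [two_smul]
      abel
    rw [a, smul_smul, inv_mul_cancel₀ two_ne_zero, one_smul]
  rw [e4, he0, hf0, single_mul_mul_single, one_mul, mul_one] at h4
  exact h4

open Matrix in
/-- An ideal of the Lie algebra of the matrices which contains `1` and a matrix which is not scalar
contains all matrices. -/
theorem mat_top (I : Submodule L (Matrix n n L)) (h1 : 1 ∈ I)
    (hI : ∀ x ∈ I, ∀ y : Matrix n n L, x * y - y * x ∈ I) (x : Matrix n n L) (hx : x ∈ I)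
    (hns : ∀ c : L, x ≠ c • (1 : Matrix n n L)) : I = ⊤ := by
  have hsc : ∀ {i j : n} {c : L}, c ≠ 0 → single i j c ∈ I → single i j (1 : L) ∈ I := by
    intro i j c hc h
    have h2 := I.smul_mem c⁻¹ h
    rwa [smul_single, smul_eq_mul, inv_mul_cancel₀ hc] at h2
  -- an elementary matrix
  obtain ⟨i, j, hij, hE⟩ : ∃ i j : n, i ≠ j ∧ single i j (1 : L) ∈ I := by
    by_contra! hno
    have hoff : ∀ i j : n, i ≠ j → x i j = 0 := by
      intro i j hij
      by_contra h0
      exact hno i j hij (hsc h0 (mat_part I hI hx hij))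
    have hdia : ∀ i j : n, x i i = x j j := by
      intro i j
      by_contra h0
      have hij : i ≠ j := by
        rintro rfl
        exact h0 rfl
      have h2 := hI x hx (single i j 1)
      have h3 := mat_part I hI h2 hij
      have e : (x * single i j (1 : L) - single i j (1 : L) * x : Matrix n n L) i j =
          x i i - x j j := by
        rw [Matrix.sub_apply, mul_single_apply_same, single_mul_apply_same, mul_one, one_mul]
      rw [e] at h3
      exact hno i j hij (hsc (sub_ne_zero.2 h0) h3)
    rcases isEmpty_or_nonempty n with hn | ⟨⟨k⟩⟩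
    · exact hns 0 (Subsingleton.elim _ _)
    · refine hns (x k k) (Matrix.ext fun i j => ?_)
      rw [Matrix.smul_apply, smul_eq_mul]
      by_cases hij : i = j
      · rw [hij, one_apply_eq, mul_one, hdia j k]
      · rw [one_apply_ne hij, mul_zero, hoff i j hij]
  have row : ∀ {i j : n}, i ≠ j → single i j (1 : L) ∈ I → ∀ k, k ≠ i → single i k (1 : L) ∈ I := by
    intro i j hij h k hk
    have h2 := hI _ h (single j k 1)
    rwa [single_mul_single_same, one_mul, single_mul_single_of_ne _ _ _ _ hk, sub_zero] at h2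
  have col : ∀ {i j : n}, i ≠ j → single i j (1 : L) ∈ I → ∀ k, k ≠ j → single k j (1 : L) ∈ I := by
    intro i j hij h k hk
    have h2 := hI _ h (single k i 1)
    rw [single_mul_single_same, one_mul, single_mul_single_of_ne _ _ _ _ hk.symm, zero_sub] at h2
    have h3 := I.neg_mem h2
    rwa [neg_neg] at h3
  have swap : ∀ {i j : n}, i ≠ j → single i j (1 : L) ∈ I → single j i (1 : L) ∈ I := by
    intro i j hij h
    have h2 := hI _ (hI _ h (single j i 1)) (single j i 1)
    have e : (single i j (1 : L) * single j i 1 - single j i 1 * single i j 1) * single j i 1 -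
        single j i 1 * (single i j 1 * single j i 1 - single j i 1 * single i j 1) =
          (-2 : L) • single j i 1 := by
      rw [single_mul_single_same, single_mul_single_same, one_mul, sub_mul, mul_sub,
        single_mul_single_of_ne _ _ _ _ hij, single_mul_single_same, single_mul_single_same,
        single_mul_single_of_ne _ _ _ _ hij, one_mul, zero_sub, sub_zero, neg_smul, two_smul]
      abel
    rw [e] at h2
    have h3 := I.smul_mem (-2 : L)⁻¹ h2
    rwa [smul_smul, inv_mul_cancel₀ (neg_ne_zero.2 two_ne_zero), one_smul] at h3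
  have hoff : ∀ k l : n, k ≠ l → single k l (1 : L) ∈ I := by
    intro k l hkl
    by_cases hli : l = i
    · have h2 := swap hij hE
      rw [hli]
      exact col hij.symm h2 k (by rw [← hli]; exact hkl)
    · have h2 := row hij hE l hli
      exact col (Ne.symm hli) h2 k hkl
  have hdd : ∀ k l : n, single k k (1 : L) - single l l 1 ∈ I := by
    intro k l
    by_cases hkl : k = l
    · rw [hkl, sub_self]
      exact I.zero_mem
    · have h2 := hI _ (hoff k l hkl) (single l k 1)
      rwa [single_mul_single_same, single_mul_single_same, one_mul] at h2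
  have hdiag : ∀ k : n, single k k (1 : L) ∈ I := by
    intro k
    have h2 : (1 : Matrix n n L) + ∑ l : n, (single k k (1 : L) - single l l 1) ∈ I :=
      I.add_mem h1 (I.sum_mem fun l _ => hdd k l)
    have e : (1 : Matrix n n L) + ∑ l : n, (single k k (1 : L) - single l l 1) =
        (Fintype.card n : L) • single k k (1 : L) := by
      have e1 : ∑ l : n, single l l (1 : L) = 1 := by
        ext a b
        rw [Matrix.sum_apply]
        by_cases hab : a = b
        · subst hab
          rw [one_apply_eq, Finset.sum_eq_single a]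
          · exact single_apply_same _ _ _
          · intro l _ hl
            exact single_apply_of_ne _ _ _ _ _ (fun h => hl h.1)
          · intro h
            exact absurd (Finset.mem_univ _) h
        · rw [one_apply_ne hab]
          refine Finset.sum_eq_zero fun l _ => ?_
          exact single_apply_of_ne _ _ _ _ _ (fun h => hab (h.1.symm.trans h.2))
      rw [Finset.sum_sub_distrib, e1, Finset.sum_const, Finset.card_univ, ← Nat.cast_smul_eq_nsmul L]
      abel
    rw [e] at h2
    have hc : (Fintype.card n : L) ≠ 0 := by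
      have : Nonempty n := ⟨k⟩
      exact_mod_cast Fintype.card_ne_zero
    have h3 := I.smul_mem (Fintype.card n : L)⁻¹ h2
    rwa [smul_smul, inv_mul_cancel₀ hc, one_smul] at h3
  rw [eq_top_iff]
  intro y _
  rw [matrix_eq_sum_single y]
  refine I.sum_mem fun k _ => I.sum_mem fun l _ => ?_
  have h2 : single k l (1 : L) ∈ I := by
    by_cases hkl : k = l
    · rw [hkl]
      exact hdiag l
    · exact hoff k l hkl
  have h3 := I.smul_mem (y k l) h2
  rwa [smul_single, smul_eq_mul, mul_one] at h3

end ideal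

section ideal_end

variable {L V : Type*} [Field L] [CharZero L] [AddCommGroup V] [Module L V] [FiniteDimensional L V]

/-- A subspace of `End V` which is stable under all commutators and contains `1` and an element
which is not scalar is everything. -/
theorem ideal_top (I : Submodule L (Module.End L V)) (h1 : 1 ∈ I)
    (hI : ∀ x ∈ I, ∀ y : Module.End L V, x * y - y * x ∈ I) (x : Module.End L V) (hx : x ∈ I)
    (hns : ∀ c : L, x ≠ c • (1 : Module.End L V)) : I = ⊤ := by
  classical
  let b := Module.finBasis L V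
  let φ := LinearMap.toMatrixAlgEquiv b
  have h2 : I.map φ.toLinearMap = ⊤ := by
    refine mat_top _ ⟨1, h1, map_one φ⟩ ?_ (φ x) ⟨x, hx, rfl⟩ ?_
    · rintro _ ⟨z, hz, rfl⟩ y
      refine ⟨z * φ.symm y - φ.symm y * z, hI z hz _, ?_⟩
      change φ (z * φ.symm y - φ.symm y * z) = φ z * y - y * φ z
      rw [map_sub, map_mul, map_mul, AlgEquiv.apply_symm_apply]
    · intro c hc
      apply hns c
      apply φ.injective
      rw [hc, map_smul, map_one]
  rw [eq_top_iff]
  intro y _
  have h3 : φ y ∈ I.map φ.toLinearMap := by rw [h2]; trivial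
  obtain ⟨z, hz, hzy⟩ := h3
  have : z = y := φ.injective hzy
  rwa [← this]

end ideal_end

section parts

variable {L R : Type*} [Field L] [CharZero L] [Ring R] [Algebra L R]

/-- The parts of degree `1` and `-1` for an idempotent of a Lie algebra are in the Lie algebra. -/
theorem part_mem (p : Submodule L R) (hl : ∀ x ∈ p, ∀ y ∈ p, x * y - y * x ∈ p) {e : R}
    (he : e ∈ p) (hee : e * e = e) {x : R} (hx : x ∈ p) :
    e * x * (1 - e) ∈ p ∧ (1 - e) * x * e ∈ p := by
  have h1 := hl _ he _ hx
  have h2 := hl _ he _ h1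
  have e2 : e * (e * x - x * e) - (e * x - x * e) * e = e * x - e * x * e - e * x * e + x * e := by
    have a1 : e * (e * x) = e * x := by rw [← mul_assoc, hee]
    have a2 : x * e * e = x * e := by rw [mul_assoc, hee]
    rw [mul_sub, sub_mul, a1, a2, ← mul_assoc]
    abel
  rw [e2] at h2
  have h3 := p.smul_mem (2⁻¹ : L) (p.add_mem h2 h1)
  have h4 := p.smul_mem (2⁻¹ : L) (p.sub_mem h2 h1)
  have e3 : e * x - e * x * e - e * x * e + x * e + (e * x - x * e) =
      (2 : L) • (e * x * (1 - e)) := by
    rw [mul_sub, mul_one, two_smul]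
    abel
  have e4 : e * x - e * x * e - e * x * e + x * e - (e * x - x * e) =
      (2 : L) • ((1 - e) * x * e) := by
    rw [sub_mul, one_mul, sub_mul, two_smul]
    abel
  rw [e3, smul_smul, inv_mul_cancel₀ two_ne_zero, one_smul] at h3
  rw [e4, smul_smul, inv_mul_cancel₀ two_ne_zero, one_smul] at h4
  exact ⟨h3, h4⟩

end parts

section rk

variable {L V : Type*} [Field L] [AddCommGroup V] [Module L V]

theorem mul_rk (x : Module.End L V) (φ : Module.Dual L V) (v : V) :
    x * (φ.smulRight v : Module.End L V) = φ.smulRight (x v) := by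
  ext z
  simp

theorem rk_mul (x : Module.End L V) (φ : Module.Dual L V) (v : V) :
    (φ.smulRight v : Module.End L V) * x = (φ ∘ₗ x : Module.Dual L V).smulRight v := by
  ext z
  simp

theorem rk_sub (φ : Module.Dual L V) (v w : V) :
    (φ.smulRight (v - w) : Module.End L V) = φ.smulRight v - φ.smulRight w := by
  ext z
  simp [smul_sub]

theorem rk_idem {φ : Module.Dual L V} {v : V} (hv : φ v = 1) :
    (φ.smulRight v : Module.End L V) * φ.smulRight v = φ.smulRight v := by
  ext z
  simp [hv]

end rk

section caseA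

variable {L V V' : Type*} [Field L] [CharZero L] [AddCommGroup V] [Module L V] [AddCommGroup V']
  [Module L V']

/-- The graph of the isomorphism in the case that both idempotents have rank one. -/
def gr (p : Submodule L (Module.End L V × Module.End L V')) (φ : Module.Dual L V)
    (φ' : Module.Dual L V') : Submodule L (V × V') where
  carrier := {u | ((φ.smulRight u.1 : Module.End L V), (φ'.smulRight u.2 : Module.End L V')) ∈ p}
  add_mem' {a b} ha hb := by
    have h := p.add_mem ha hb
    have e1 : (φ.smulRight (a + b).1 : Module.End L V) = φ.smulRight a.1 + φ.smulRight b.1 := by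
      ext z
      simp [smul_add]
    have e2 : (φ'.smulRight (a + b).2 : Module.End L V') = φ'.smulRight a.2 + φ'.smulRight b.2 := by
      ext z
      simp [smul_add]
    change (_, _) ∈ p
    rw [e1, e2]
    exact h
  zero_mem' := by
    have e1 : (φ.smulRight (0 : V × V').1 : Module.End L V) = 0 := by
      ext z
      simp
    have e2 : (φ'.smulRight (0 : V × V').2 : Module.End L V') = 0 := by
      ext z
      simp
    change (_, _) ∈ p
    rw [e1, e2]
    exact p.zero_mem
  smul_mem' c a ha := by
    have h := p.smul_mem c ha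
    have e1 : (φ.smulRight (c • a).1 : Module.End L V) = c • φ.smulRight a.1 := by
      ext z
      simp only [LinearMap.smulRight_apply, Prod.smul_fst, LinearMap.smul_apply]
      rw [smul_comm]
    have e2 : (φ'.smulRight (c • a).2 : Module.End L V') = c • φ'.smulRight a.2 := by
      ext z
      simp only [LinearMap.smulRight_apply, Prod.smul_snd, LinearMap.smul_apply]
      rw [smul_comm]
    change (_, _) ∈ p
    rw [e1, e2]
    exact h

theorem mem_gr {p : Submodule L (Module.End L V × Module.End L V')} {φ : Module.Dual L V}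
    {φ' : Module.Dual L V'} {u : V} {u' : V'} : (u, u') ∈ gr p φ φ' ↔
      ((φ.smulRight u : Module.End L V), (φ'.smulRight u' : Module.End L V')) ∈ p := Iff.rfl

/-- the part of degree `-1` -/
theorem part_gr {p : Submodule L (Module.End L V × Module.End L V')}
    (hl : ∀ x ∈ p, ∀ y ∈ p, x * y - y * x ∈ p) {v : V} {φ : Module.Dual L V} (hv : φ v = 1)
    {v' : V'} {φ' : Module.Dual L V'} (hv' : φ' v' = 1)
    (he : ((φ.smulRight v : Module.End L V), (φ'.smulRight v' : Module.End L V')) ∈ p)
    {x : Module.End L V × Module.End L V'} (hx : x ∈ p) :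
    (x.1 v - φ (x.1 v) • v, x.2 v' - φ' (x.2 v') • v') ∈ gr p φ φ' := by
  have hee : ((φ.smulRight v : Module.End L V), (φ'.smulRight v' : Module.End L V')) *
      (φ.smulRight v, φ'.smulRight v') = (φ.smulRight v, φ'.smulRight v') :=
    Prod.ext (rk_idem hv) (rk_idem hv')
  have h := (part_mem p hl he hee hx).2
  rw [mem_gr]
  convert h using 1
  refine Prod.ext ?_ ?_
  · ext z
    simp [smul_sub, sub_smul, smul_smul]
  · ext z
    simp [smul_sub, sub_smul, smul_smul]

/-- the part of degree `1` -/
theorem part_gr' {p : Submodule L (Module.End L V × Module.End L V')}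
    (hl : ∀ x ∈ p, ∀ y ∈ p, x * y - y * x ∈ p) {v : V} {φ : Module.Dual L V} (hv : φ v = 1)
    {v' : V'} {φ' : Module.Dual L V'} (hv' : φ' v' = 1)
    (he : ((φ.smulRight v : Module.End L V), (φ'.smulRight v' : Module.End L V')) ∈ p)
    {x : Module.End L V × Module.End L V'} (hx : x ∈ p) :
    (((φ ∘ₗ x.1 - φ (x.1 v) • φ : Module.Dual L V).smulRight v : Module.End L V),
      ((φ' ∘ₗ x.2 - φ' (x.2 v') • φ' : Module.Dual L V').smulRight v' : Module.End L V')) ∈ p := by
  have hee : ((φ.smulRight v : Module.End L V), (φ'.smulRight v' : Module.End L V')) *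
      (φ.smulRight v, φ'.smulRight v') = (φ.smulRight v, φ'.smulRight v') :=
    Prod.ext (rk_idem hv) (rk_idem hv')
  have h := (part_mem p hl he hee hx).1
  convert h using 1
  refine Prod.ext ?_ ?_
  · ext z
    simp [sub_smul, smul_smul, mul_comm]
  · ext z
    simp [sub_smul, smul_smul, mul_comm]

theorem rk_scalar {φ : Module.Dual L V} {v u : V} {c : L} (hv : φ v = 1) (hd : ∃ z ≠ 0, φ z = 0)
    (h : (φ.smulRight u : Module.End L V) = c • 1) : u = 0 := by
  obtain ⟨z, hz, hz'⟩ := hd
  have h1 := LinearMap.congr_fun h z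
  have h2 : c • z = 0 := by
    rw [LinearMap.smulRight_apply, hz', zero_smul] at h1
    exact h1.symm
  have hc : c = 0 := (smul_eq_zero.1 h2).resolve_right hz
  have h3 := LinearMap.congr_fun h v
  rw [LinearMap.smulRight_apply, hv, one_smul, hc, zero_smul] at h3
  exact h3

/-- The case that both idempotents have rank one. -/
theorem caseA (p : Submodule L (Module.End L V × Module.End L V'))
    (hl : ∀ x ∈ p, ∀ y ∈ p, x * y - y * x ∈ p) (h1 : ∀ x, ∃ y, (x, y) ∈ p)
    (h2 : ∀ y, ∃ x, (x, y) ∈ p) (hs : ∀ y, ((0 : Module.End L V), y) ∈ p → ∃ c : L, y = c • 1)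
    (hs' : ∀ x, (x, (0 : Module.End L V')) ∈ p → ∃ c : L, x = c • 1) {v : V} {φ : Module.Dual L V}
    (hv : φ v = 1) {v' : V'} {φ' : Module.Dual L V'} (hv' : φ' v' = 1)
    (he : ((φ.smulRight v : Module.End L V), (φ'.smulRight v' : Module.End L V')) ∈ p)
    (hd : ∃ z ≠ 0, φ z = 0) (hd' : ∃ z ≠ 0, φ' z = 0) :
    ∃ T : V ≃ₗ[L] V', ∀ x ∈ p, ∃ c : L,
      x.2 ∘ₗ T.toLinearMap - T.toLinearMap ∘ₗ x.1 = c • T.toLinearMap := by
  have hvv : (v, v') ∈ gr p φ φ' := he
  have zero1 : ∀ u', ((0 : V), u') ∈ gr p φ φ' → u' = 0 := by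
    intro u' hu
    rw [mem_gr] at hu
    have e : (φ.smulRight (0 : V) : Module.End L V) = 0 := by
      ext z
      simp
    rw [e] at hu
    obtain ⟨c, hc⟩ := hs _ hu
    exact rk_scalar hv' hd' hc
  have zero2 : ∀ u, (u, (0 : V')) ∈ gr p φ φ' → u = 0 := by
    intro u hu
    rw [mem_gr] at hu
    have e : (φ'.smulRight (0 : V') : Module.End L V') = 0 := by
      ext z
      simp
    rw [e] at hu
    obtain ⟨c, hc⟩ := hs' _ hu
    exact rk_scalar hv hd hc
  have ex1 : ∀ u, ∃ u', (u, u') ∈ gr p φ φ' := by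
    intro u
    obtain ⟨y, hy⟩ := h1 (φ.smulRight u)
    have h := part_gr hl hv hv' he hy
    have h3 := (gr p φ φ').add_mem h ((gr p φ φ').smul_mem (φ u) hvv)
    refine ⟨(y v' - φ' (y v') • v') + φ u • v', ?_⟩
    convert h3 using 1
    refine Prod.ext ?_ rfl
    simp [hv]
  have ex2 : ∀ u', ∃ u, (u, u') ∈ gr p φ φ' := by
    intro u'
    obtain ⟨x, hx⟩ := h2 (φ'.smulRight u')
    have h := part_gr hl hv hv' he hx
    have h3 := (gr p φ φ').add_mem h ((gr p φ φ').smul_mem (φ' u') hvv)
    refine ⟨(x v - φ (x v) • v) + φ' u' • v, ?_⟩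
    convert h3 using 1
    refine Prod.ext rfl ?_
    simp [hv']
  -- the isomorphism
  let Γ := gr p φ φ'
  let π₁ : Γ →ₗ[L] V := LinearMap.fst L V V' ∘ₗ Γ.subtype
  let π₂ : Γ →ₗ[L] V' := LinearMap.snd L V V' ∘ₗ Γ.subtype
  have b1 : Function.Bijective π₁ := by
    constructor
    · rw [← LinearMap.ker_eq_bot, LinearMap.ker_eq_bot']
      rintro ⟨⟨u, u'⟩, hu⟩ h0
      have h3 : u = 0 := h0
      subst h3
      have h4 := zero1 u' hu
      subst h4
      rfl
    · intro u
      obtain ⟨u', hu⟩ := ex1 u
      exact ⟨⟨(u, u'), hu⟩, rfl⟩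
  have b2 : Function.Bijective π₂ := by
    constructor
    · rw [← LinearMap.ker_eq_bot, LinearMap.ker_eq_bot']
      rintro ⟨⟨u, u'⟩, hu⟩ h0
      have h3 : u' = 0 := h0
      subst h3
      have h4 := zero2 u hu
      subst h4
      rfl
    · intro u'
      obtain ⟨u, hu⟩ := ex2 u'
      exact ⟨⟨(u, u'), hu⟩, rfl⟩
  let T : V ≃ₗ[L] V' := (LinearEquiv.ofBijective π₁ b1).symm.trans (LinearEquiv.ofBijective π₂ b2)
  have hT : ∀ u, (u, T u) ∈ gr p φ φ' := by
    intro u
    obtain ⟨g, hg⟩ := b1.2 u
    have h3 : (LinearEquiv.ofBijective π₁ b1).symm u = g := by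
      rw [LinearEquiv.symm_apply_eq]
      exact hg.symm
    have h4 : T u = g.1.2 := by
      change (LinearEquiv.ofBijective π₂ b2) ((LinearEquiv.ofBijective π₁ b1).symm u) = _
      rw [h3]
      rfl
    have h5 : g.1.1 = u := hg
    rw [h4, ← h5]
    exact g.2
  have uniq : ∀ u u', (u, u') ∈ gr p φ φ' → u' = T u := by
    intro u u' hu
    have h3 := (gr p φ φ').sub_mem hu (hT u)
    have h4 : (0, u' - T u) ∈ gr p φ φ' := by
      convert h3 using 1
      refine Prod.ext ?_ rfl
      simp
    exact sub_eq_zero.1 (zero1 _ h4)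
  have hTv : T v = v' := (uniq v v' hvv).symm
  have hφT : ∀ u, φ' (T u) = φ u := by
    intro u
    have h3 := part_gr hl hv hv' he (x := (φ.smulRight u, φ'.smulRight (T u))) (hT u)
    have h4 := uniq _ _ h3
    simp only [LinearMap.smulRight_apply, hv, hv', one_smul, map_sub, map_smul, hTv] at h4
    have h5 : φ u • v' = φ' (T u) • v' := by
      have := sub_right_injective h4
      exact this.symm
    have h6 := congrArg φ' h5
    simp only [map_smul, hv', smul_eq_mul, mul_one] at h6
    exact h6.symm
  -- linear forms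
  have hψ : ∀ (ψ : Module.Dual L V) (ψ' : Module.Dual L V'), ψ v = 0 → ψ' v' = 0 →
      ((ψ.smulRight v : Module.End L V), (ψ'.smulRight v' : Module.End L V')) ∈ p →
      ∀ u, φ u = 0 → ψ' (T u) = ψ u := by
    intro ψ ψ' hψv hψv' hm u hu
    by_cases hu0 : u = 0
    · rw [hu0, map_zero, map_zero, map_zero]
    have h3 := hl _ (hl _ hm _ (hT u)) _ (hT u)
    have hu' : φ' (T u) = 0 := by rw [hφT, hu]
    have e1 : (ψ.smulRight v * φ.smulRight u - φ.smulRight u * ψ.smulRight v) * φ.smulRight u -
        φ.smulRight u * (ψ.smulRight v * φ.smulRight u - φ.smulRight u * ψ.smulRight v) =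
        (φ.smulRight ((-2 * ψ u) • u) : Module.End L V) := by
      ext z
      simp only [LinearMap.sub_apply, Module.End.mul_apply, LinearMap.smulRight_apply, map_sub,
        map_smul, smul_eq_mul, hu, hv, mul_zero, mul_one, smul_sub, zero_smul, sub_zero, zero_sub,
        smul_smul, smul_neg, map_zero, map_neg]
      module
    have e2 : (ψ'.smulRight v' * φ'.smulRight (T u) - φ'.smulRight (T u) * ψ'.smulRight v') *
        φ'.smulRight (T u) - φ'.smulRight (T u) *
          (ψ'.smulRight v' * φ'.smulRight (T u) - φ'.smulRight (T u) * ψ'.smulRight v') =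
        (φ'.smulRight ((-2 * ψ' (T u)) • T u) : Module.End L V') := by
      ext z
      simp only [LinearMap.sub_apply, Module.End.mul_apply, LinearMap.smulRight_apply, map_sub,
        map_smul, smul_eq_mul, hu', hv', mul_zero, mul_one, smul_sub, zero_smul, sub_zero, zero_sub,
        smul_smul, smul_neg, map_zero, map_neg]
      module
    have h4 : ((-2 * ψ u) • u, (-2 * ψ' (T u)) • T u) ∈ gr p φ φ' := by
      rw [mem_gr, ← e1, ← e2]
      exact h3
    have h5 := uniq _ _ h4
    rw [map_smul] at h5
    have h6 : T u ≠ 0 := by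
      intro h0
      exact hu0 (T.map_eq_zero_iff.1 h0)
    have h7 : -2 * ψ' (T u) = -2 * ψ u := smul_left_injective L h6 h5
    exact mul_left_cancel₀ (neg_ne_zero.2 two_ne_zero) h7
  refine ⟨T, fun x hx => ⟨φ' (x.2 v') - φ (x.1 v), ?_⟩⟩
  obtain ⟨c, hc⟩ : ∃ c, c = φ' (x.2 v') - φ (x.1 v) := ⟨_, rfl⟩
  rw [← hc]
  -- on `ker φ`
  have hker : ∀ u, φ u = 0 → x.2 (T u) - T (x.1 u) = c • T u := by
    intro u hu
    have h3 := part_gr hl hv hv' he (hl _ hx _ (hT u))
    have h4 := uniq _ _ h3
    have hu' : φ' (T u) = 0 := by rw [hφT, hu]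
    have h5 := part_gr' hl hv hv' he hx
    have h6 := hψ _ _ (by simp [hv]) (by simp [hv']) h5 u hu
    simp only [LinearMap.sub_apply, LinearMap.comp_apply, LinearMap.smul_apply, hu, hu', smul_eq_mul,
      mul_zero, sub_zero] at h6
    simp only [Prod.fst_sub, Prod.snd_sub, Prod.fst_mul, Prod.snd_mul, LinearMap.sub_apply,
      Module.End.mul_apply, LinearMap.smulRight_apply, hv, hv', one_smul, map_sub, map_smul,
      smul_eq_mul, hu, hu', mul_zero, sub_zero, hTv] at h4
    rw [h6] at h4
    rw [hc, sub_smul]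
    have h7 : x.2 (T u) - φ' (x.2 v') • T u = T (x.1 u) - φ (x.1 v) • T u := sub_left_injective h4
    rw [sub_eq_sub_iff_add_eq_add] at h7 ⊢
    rw [h7, add_comm]
  ext z
  have ez : z = φ z • v + (z - φ z • v) := by abel
  have hz : φ (z - φ z • v) = 0 := by simp [hv]
  have h3 := hker _ hz
  -- on `v`
  have h4 : x.2 v' - T (x.1 v) = c • v' := by
    have h5 := part_gr hl hv hv' he hx
    have h6 := uniq _ _ h5
    simp only [map_sub, map_smul, hTv] at h6
    rw [hc, sub_smul]
    rw [sub_eq_sub_iff_add_eq_add] at h6 ⊢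
    rw [h6, add_comm]
  have h5 : x.2 (T z) - T (x.1 z) = c • T z := by
    rw [ez]
    simp only [map_add, map_smul, hTv]
    have e : φ z • x.2 v' + x.2 (T (z - φ z • v)) - (φ z • T (x.1 v) + T (x.1 (z - φ z • v))) =
        φ z • (x.2 v' - T (x.1 v)) + (x.2 (T (z - φ z • v)) - T (x.1 (z - φ z • v))) := by
      rw [smul_sub]
      abel
    rw [e, h3, h4]
    module
  exact h5

end caseA

section idem

variable {L V : Type*} [Field L] [AddCommGroup V] [Module L V]

theorem sep2 {a b : V} (h : a ∉ Submodule.span L {b}) : ∃ α : Module.Dual L V, α a = 1 ∧ α b = 0 := by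
  obtain ⟨f, hf, hf'⟩ := Submodule.exists_dual_map_eq_bot_of_notMem h inferInstance
  have hb : f b = 0 := by
    have h1 : f b ∈ (Submodule.span L {b}).map f := ⟨b, Submodule.mem_span_singleton_self b, rfl⟩
    rw [hf'] at h1
    exact (Submodule.mem_bot L).1 h1
  refine ⟨(f a)⁻¹ • f, ?_, ?_⟩
  · rw [LinearMap.smul_apply, smul_eq_mul, inv_mul_cancel₀ hf]
  · rw [LinearMap.smul_apply, hb, smul_zero]

/-- an idempotent of rank one -/
def IsRk (q : Module.End L V) : Prop :=
  ∃ (v : V) (φ : Module.Dual L V), φ v = 1 ∧ q = φ.smulRight v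

/-- an idempotent has rank one, or its image contains two independent vectors -/
theorem isRk_or {q : Module.End L V} (hq : q * q = q) (hq0 : q ≠ 0) :
    IsRk q ∨ ∃ a b : V, q a = a ∧ q b = b ∧ a ∉ Submodule.span L {b} ∧
      b ∉ Submodule.span L {a} := by
  obtain ⟨z, hz⟩ : ∃ z, q z ≠ 0 := by
    by_contra! h
    exact hq0 (LinearMap.ext h)
  have hqq : ∀ y, q (q y) = q y := fun y => LinearMap.congr_fun hq y
  by_cases h : ∃ y, q y ∉ Submodule.span L {q z}
  · obtain ⟨y, hy⟩ := h
    refine Or.inr ⟨q y, q z, hqq y, hqq z, hy, ?_⟩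
    intro h1
    obtain ⟨t, ht⟩ := Submodule.mem_span_singleton.1 h1
    have ht0 : t ≠ 0 := by
      rintro rfl
      rw [zero_smul] at ht
      exact hz ht.symm
    apply hy
    rw [Submodule.mem_span_singleton]
    exact ⟨t⁻¹, by rw [← ht, smul_smul, inv_mul_cancel₀ ht0, one_smul]⟩
  · push Not at h
    have h0 : q z ∉ Submodule.span L {(0 : V)} := by
      rw [Submodule.span_zero_singleton, Submodule.mem_bot]
      exact hz
    obtain ⟨χ, hχ, -⟩ := sep2 h0
    refine Or.inl ⟨q z, χ ∘ₗ q, ?_, ?_⟩
    · rw [LinearMap.comp_apply, hqq, hχ]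
    · ext y
      obtain ⟨t, ht⟩ := Submodule.mem_span_singleton.1 (h y)
      rw [LinearMap.smulRight_apply, LinearMap.comp_apply, ← ht, map_smul, hχ, smul_eq_mul, mul_one]

/-- Idempotents with this property have rank or corank one. -/
theorem isRk_of {q : Module.End L V} (hq : q * q = q) (hq0 : q ≠ 0) (hq1 : q ≠ 1)
    (h : ∀ a b : Module.End L V, ∃ c : L,
      q * a * (1 - q) * ((1 - q) * b * q) * (q * a * (1 - q)) = c • (q * a * (1 - q))) :
    IsRk q ∨ IsRk (1 - q) := by
  have hq' : (1 - q) * (1 - q) = 1 - q := by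
    rw [mul_sub, mul_one, sub_mul, one_mul, hq, sub_self, sub_zero]
  have hq0' : 1 - q ≠ 0 := sub_ne_zero.2 hq1.symm
  rcases isRk_or hq hq0 with h1 | ⟨a₁, a₂, ha₁, ha₂, ha, ha'⟩
  · exact Or.inl h1
  rcases isRk_or hq' hq0' with h1 | ⟨b₁, b₂, hb₁, hb₂, hb, hb'⟩
  · exact Or.inr h1
  exfalso
  obtain ⟨α, hα₁, hα₂⟩ := sep2 ha
  obtain ⟨β₁, hβ₁, hβ₁'⟩ := sep2 hb
  obtain ⟨β₂, hβ₂, hβ₂'⟩ := sep2 hb'
  obtain ⟨c, hc⟩ := h (β₁.smulRight a₁ + β₂.smulRight a₂) (α.smulRight b₁)
  have e1 : ∀ y, (1 - q) y = y → (q * (β₁.smulRight a₁ + β₂.smulRight a₂) * (1 - q)) y =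
      β₁ y • a₁ + β₂ y • a₂ := by
    intro y hy
    rw [Module.End.mul_apply, Module.End.mul_apply, hy, LinearMap.add_apply,
      LinearMap.smulRight_apply, LinearMap.smulRight_apply, map_add, map_smul, map_smul, ha₁, ha₂]
  have e2 : ∀ y, q y = y → ((1 - q) * α.smulRight b₁ * q) y = α y • b₁ := by
    intro y hy
    rw [Module.End.mul_apply, Module.End.mul_apply, hy, LinearMap.smulRight_apply, map_smul, hb₁]
  have h1 := LinearMap.congr_fun hc b₂
  have h2 := LinearMap.congr_fun hc b₁
  rw [Module.End.mul_apply, Module.End.mul_apply, LinearMap.smul_apply, e1 b₂ hb₂, hβ₁', hβ₂,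
    zero_smul, one_smul, zero_add, e2 a₂ ha₂, hα₂, zero_smul, map_zero] at h1
  rw [Module.End.mul_apply, Module.End.mul_apply, LinearMap.smul_apply, e1 b₁ hb₁, hβ₁, hβ₂',
    zero_smul, one_smul, add_zero, e2 a₁ ha₁, hα₁, one_smul, e1 b₁ hb₁, hβ₁, hβ₂', zero_smul,
    one_smul, add_zero] at h2
  have ha₂0 : a₂ ≠ 0 := by
    rintro rfl
    exact ha' (Submodule.zero_mem _)
  have hc0 : c = 0 := (smul_eq_zero.1 h1.symm).resolve_right ha₂0
  rw [hc0, zero_smul] at h2
  rw [h2, map_zero] at hα₁
  exact zero_ne_one hα₁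

end idem

section cube

variable {L V : Type*} [Field L] [CharZero L] [AddCommGroup V] [Module L V]

/-- If `ad h` is equal to its third power and `μ` is an eigenvalue of `h`, then `μ - h` is equal to
its third power. -/
theorem cube_of {h : Module.End L V}
    (had : ∀ y : Module.End L V, h * (h * (h * y - y * h) - (h * y - y * h) * h) -
      (h * (h * y - y * h) - (h * y - y * h) * h) * h = h * y - y * h) {w : V} (hw : w ≠ 0) {μ : L}
    (hμ : h w = μ • w) : (μ • 1 - h) * ((μ • 1 - h) * (μ • 1 - h)) = μ • 1 - h := by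
  obtain ⟨g, hg⟩ : ∃ g : Module.End L V, g = μ • 1 - h := ⟨_, rfl⟩
  have hh : h = μ • 1 - g := by rw [hg, sub_sub_cancel]
  have ad1 : ∀ y : Module.End L V, h * y - y * h = y * g - g * y := by
    intro y
    rw [hh, sub_mul, mul_sub, smul_one_mul, mul_smul_one]
    abel
  have hgw : g w = 0 := by
    rw [hg, LinearMap.sub_apply, hμ]
    simp
  have ad2 : ∀ χ : Module.Dual L V, (χ.smulRight w : Module.End L V) * g - g * χ.smulRight w =
      (χ ∘ₗ g : Module.Dual L V).smulRight w := by
    intro χ
    rw [rk_mul, mul_rk, hgw]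
    ext z
    simp
  rw [← hg]
  ext z
  by_contra hne
  obtain ⟨f, hf, -⟩ := sep2 (a := (g * (g * g)) z - g z) (b := (0 : V)) (L := L) (by
    rw [Submodule.span_zero_singleton, Submodule.mem_bot]
    exact sub_ne_zero.2 hne)
  have h1 := had (f.smulRight w)
  rw [ad1, ad1, ad1, ad2, ad2, ad2] at h1
  have h2 := LinearMap.congr_fun h1 z
  simp only [LinearMap.smulRight_apply, LinearMap.comp_apply] at h2
  have h3 : f (g (g (g z))) = f (g z) := smul_left_injective L hw h2
  rw [map_sub] at hf
  simp only [Module.End.mul_apply] at hf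
  rw [h3, sub_self] at hf
  exact zero_ne_one hf

/-- If `ad h` is equal to its third power and `h` has an eigenvalue, then `h` is a scalar plus an
idempotent. -/
theorem idem_of {h : Module.End L V}
    (had : ∀ y : Module.End L V, h * (h * (h * y - y * h) - (h * y - y * h) * h) -
      (h * (h * y - y * h) - (h * y - y * h) * h) * h = h * y - y * h) {w : V} (hw : w ≠ 0) {μ : L}
    (hμ : h w = μ • w) : ∃ (q : Module.End L V) (c : L), q * q = q ∧ h = q + c • 1 := by
  have h3 := cube_of had hw hμ
  obtain ⟨g, hg⟩ : ∃ g : Module.End L V, g = μ • 1 - h := ⟨_, rfl⟩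
  have hh : h = μ • 1 - g := by rw [hg, sub_sub_cancel]
  rw [← hg] at h3
  by_cases h1 : g * g = g
  · refine ⟨1 - g, μ - 1, ?_, ?_⟩
    · rw [mul_sub, mul_one, sub_mul, one_mul, h1, sub_self, sub_zero]
    · rw [hh, sub_smul, one_smul]
      abel
  by_cases h2 : g * g = -g
  · refine ⟨-g, μ, ?_, ?_⟩
    · rw [neg_mul_neg, h2]
    · rw [hh]
      abel
  exfalso
  obtain ⟨z, hz⟩ : ∃ z, (g * g - g) z ≠ 0 := by
    by_contra! hno
    exact h1 (sub_eq_zero.1 (LinearMap.ext hno))
  obtain ⟨y, hy⟩ : ∃ y, (g * g + g) y ≠ 0 := by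
    by_contra! hno
    exact h2 (eq_neg_of_add_eq_zero_left (LinearMap.ext hno))
  have e1 : g ((g * g - g) z) = - (g * g - g) z := by
    have : g * (g * g - g) = -(g * g - g) := by rw [mul_sub, h3, neg_sub]
    exact LinearMap.congr_fun this z
  have e2 : g ((g * g + g) y) = (g * g + g) y := by
    have : g * (g * g + g) = g * g + g := by rw [mul_add, h3, add_comm]
    exact LinearMap.congr_fun this y
  have e3 : h ((g * g + g) y) = (μ - 1) • (g * g + g) y := by
    rw [hh, LinearMap.sub_apply, e2, sub_smul, one_smul]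
    rfl
  have h4 := cube_of had hy e3
  have e4 : (μ - 1) • (1 : Module.End L V) - h = g - 1 := by
    rw [hh, sub_smul, one_smul]
    abel
  rw [e4] at h4
  have h5 := LinearMap.congr_fun h4 ((g * g - g) z)
  obtain ⟨a, ha⟩ : ∃ a, a = (g * g - g) z := ⟨_, rfl⟩
  rw [← ha] at h5 e1 hz
  have e5 : (g - 1) a = (-2 : L) • a := by
    rw [LinearMap.sub_apply, e1, Module.End.one_apply, neg_smul, two_smul]
    abel
  rw [Module.End.mul_apply, Module.End.mul_apply, e5, map_smul, e5, map_smul, map_smul, e5,
    smul_smul, smul_smul] at h5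
  have h6 : (-2 * -2 * -2 : L) = -2 := smul_left_injective L hz h5
  norm_num at h6

end cube

section dual

variable {L V : Type*} [Field L] [AddCommGroup V] [Module L V]

theorem dual_inj {y : Module.End L V} (h : (y.dualMap : Module.End L (Module.Dual L V)) = 0) :
    y = 0 := by
  ext z
  refine (Module.forall_dual_apply_eq_zero_iff L _).1 fun f => ?_
  have h1 := LinearMap.congr_fun (LinearMap.congr_fun h f) z
  exact h1

theorem dual_surj [FiniteDimensional L V] (y : Module.End L (Module.Dual L V)) :
    ∃ x : Module.End L V, (x.dualMap : Module.End L (Module.Dual L V)) = y := by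
  refine ⟨(Module.evalEquiv L V).symm.toLinearMap ∘ₗ y.dualMap ∘ₗ
    (Module.evalEquiv L V).toLinearMap, ?_⟩
  ext f w
  have h1 : Module.evalEquiv L V ((Module.evalEquiv L V).symm (y.dualMap (Module.evalEquiv L V w))) =
      y.dualMap (Module.evalEquiv L V w) := LinearEquiv.apply_symm_apply _ _
  have h2 := LinearMap.congr_fun h1 f
  exact h2

theorem dual_rk (φ : Module.Dual L V) (v : V) :
    ((φ.smulRight v : Module.End L V).dualMap : Module.End L (Module.Dual L V)) =
      (Module.Dual.eval L V v).smulRight φ := by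
  ext f z
  simp [mul_comm]

/-- minus the transpose, in the second component -/
def dm (L V V' : Type*) [Field L] [AddCommGroup V] [Module L V] [AddCommGroup V'] [Module L V'] :
    (Module.End L V × Module.End L V') →ₗ[L] (Module.End L V × Module.End L (Module.Dual L V')) where
  toFun x := (x.1, -(x.2.dualMap : Module.End L (Module.Dual L V')))
  map_add' a b := by
    refine Prod.ext rfl ?_
    ext f z
    simp [add_comm]
  map_smul' c a := by
    refine Prod.ext rfl ?_
    ext f z
    simp

theorem dm_comm {V' : Type*} [AddCommGroup V'] [Module L V']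
    (a b : Module.End L V × Module.End L V') :
    dm L V V' a * dm L V V' b - dm L V V' b * dm L V V' a = dm L V V' (a * b - b * a) := by
  refine Prod.ext rfl ?_
  ext f z
  simp [dm]

end dual

section pair

variable {L V V' : Type*} [Field L] [CharZero L] [AddCommGroup V] [Module L V]
  [FiniteDimensional L V] [AddCommGroup V'] [Module L V'] [FiniteDimensional L V']

/-- Two blocks of a Lie algebra which contains an idempotent of rank one in the first: they are
isomorphic or dual, up to scalars, if the first block is scalar where the second is. -/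
theorem pair (p : Submodule L (Module.End L V × Module.End L V'))
    (hl : ∀ x ∈ p, ∀ y ∈ p, x * y - y * x ∈ p) (h10 : (1, 0) ∈ p) (h01 : (0, 1) ∈ p)
    (h1 : ∀ x, ∃ y, (x, y) ∈ p) (h2 : ∀ y, ∃ x, (x, y) ∈ p)
    (hsep : ∀ x ∈ p, (∃ c : L, x.2 = c • 1) → ∃ c : L, x.1 = c • 1) (v : V) (φ : Module.Dual L V)
    (hv : φ v = 1) (hdim : 2 ≤ Module.finrank L V) (h' : Module.End L V')
    (hh : (φ.smulRight v, h') ∈ p) (hdiag : ⨆ μ : L, Module.End.eigenspace h' μ = ⊤) :
    (∃ T : V ≃ₗ[L] V', ∀ x ∈ p, ∃ c : L,
      x.2 ∘ₗ T.toLinearMap - T.toLinearMap ∘ₗ x.1 = c • T.toLinearMap) ∨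
    (∃ T : V ≃ₗ[L] Module.Dual L V', ∀ x ∈ p, ∃ c : L,
      x.2.dualMap ∘ₗ T.toLinearMap + T.toLinearMap ∘ₗ x.1 = c • T.toLinearMap) := by
  have hd : ∃ z ≠ 0, φ z = 0 := by
    by_contra! hno
    have hinj : Function.Injective φ := by
      rw [← LinearMap.ker_eq_bot, LinearMap.ker_eq_bot']
      intro z hz
      by_contra h0
      exact hno z h0 hz
    have := LinearMap.finrank_le_finrank_of_injective hinj
    rw [Module.finrank_self] at this
    omega
  have hv0 : v ≠ 0 := by
    rintro rfl
    rw [map_zero] at hv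
    exact zero_ne_one hv
  obtain ⟨e, he⟩ : ∃ e : Module.End L V, e = φ.smulRight v := ⟨_, rfl⟩
  have hee : e * e = e := by rw [he]; exact rk_idem hv
  have hens : ∀ c : L, e ≠ c • 1 := by
    intro c hc
    rw [he] at hc
    exact hv0 (rk_scalar hv hd hc)
  rw [← he] at hh
  -- the second block is scalar where the first is zero
  have hs' : ∀ x, (x, (0 : Module.End L V')) ∈ p → ∃ c : L, x = c • 1 := fun x hx =>
    hsep _ hx ⟨0, by simp⟩
  have hs : ∀ y, ((0 : Module.End L V), y) ∈ p → ∃ c : L, y = c • 1 := by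
    intro y hy
    by_contra! hno
    have htop : p.comap (LinearMap.inr L (Module.End L V) (Module.End L V')) = ⊤ := by
      refine ideal_top _ h01 ?_ y hy hno
      intro z hz w
      obtain ⟨x, hx⟩ := h2 w
      have h3 := hl _ hz _ hx
      change (0, z * w - w * z) ∈ p
      convert h3 using 1
      refine Prod.ext ?_ rfl
      simp
    obtain ⟨y', hy'⟩ := h1 e
    have h3 : y' ∈ p.comap (LinearMap.inr L (Module.End L V) (Module.End L V')) := by
      rw [htop]
      trivial
    have h4 := p.sub_mem hy' h3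
    have h5 : (e, (0 : Module.End L V')) ∈ p := by
      convert h4 using 1
      refine Prod.ext ?_ ?_
      · simp
      · simp
    obtain ⟨c, hc⟩ := hs' _ h5
    exact hens c hc
  have hnt : Nontrivial V' := by
    by_contra hno
    rw [not_nontrivial_iff_subsingleton] at hno
    obtain ⟨c, hc⟩ := hsep _ hh ⟨0, Subsingleton.elim _ _⟩
    exact hens c hc
  -- the third power of `ad h'`
  have had : ∀ y : Module.End L V', h' * (h' * (h' * y - y * h') - (h' * y - y * h') * h') -
      (h' * (h' * y - y * h') - (h' * y - y * h') * h') * h' = h' * y - y * h' := by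
    intro y
    obtain ⟨x, hx⟩ := h2 y
    have m1 := hl _ hh _ hx
    have m2 := hl _ hh _ m1
    have m3 := hl _ hh _ m2
    have m4 := p.sub_mem m3 m1
    have e1 : e * (e * (e * x - x * e) - (e * x - x * e) * e) -
        (e * (e * x - x * e) - (e * x - x * e) * e) * e - (e * x - x * e) = 0 := by
      have a1 : e * (e * x) = e * x := by rw [← mul_assoc, hee]
      have a2 : x * e * e = x * e := by rw [mul_assoc, hee]
      have a3 : e * (x * e) = e * x * e := (mul_assoc _ _ _).symm
      have a4 : e * (e * x * e) = e * x * e := by rw [← mul_assoc, a1]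
      have a5 : e * x * e * e = e * x * e := by rw [mul_assoc (e * x), hee]
      simp only [mul_sub, sub_mul, a1, a2, a3, a4, a5]
      abel
    have m5 : ((0 : Module.End L V), h' * (h' * (h' * y - y * h') - (h' * y - y * h') * h') -
        (h' * (h' * y - y * h') - (h' * y - y * h') * h') * h' - (h' * y - y * h')) ∈ p := by
      convert m4 using 1
      exact Prod.ext e1.symm rfl
    obtain ⟨c, hc⟩ := hs _ m5
    have htr := congrArg (LinearMap.trace L V') hc
    rw [map_sub, map_sub, map_sub, LinearMap.trace_mul_comm, sub_self,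
      LinearMap.trace_mul_comm L h' y, sub_self, sub_zero, map_smul, LinearMap.trace_one,
      smul_eq_mul] at htr
    have hc0 : c = 0 := by
      have h3 : (Module.finrank L V' : L) ≠ 0 := by
        have := Module.finrank_pos (R := L) (M := V')
        exact_mod_cast this.ne'
      exact (mul_eq_zero.1 htr.symm).resolve_right h3
    rw [hc0, zero_smul] at hc
    exact sub_eq_zero.1 hc
  obtain ⟨μ, w, hw0, hw⟩ : ∃ (μ : L) (w : V'), w ≠ 0 ∧ h' w = μ • w := by
    by_contra! hno
    have h3 : ⨆ μ : L, Module.End.eigenspace h' μ = ⊥ := by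
      rw [iSup_eq_bot]
      intro μ
      rw [eq_bot_iff]
      intro w hw
      rw [Submodule.mem_bot]
      by_contra h0
      exact hno μ w h0 (Module.End.mem_eigenspace_iff.1 hw)
    rw [hdiag] at h3
    exact top_ne_bot h3
  obtain ⟨q, c, hq, hqc⟩ := idem_of had hw0 hw
  have hE : (e, q) ∈ p := by
    have h3 := p.sub_mem hh (p.smul_mem c h01)
    convert h3 using 1
    refine Prod.ext ?_ ?_
    · simp
    · simp [hqc]
  have hq0 : q ≠ 0 := by
    rintro rfl
    obtain ⟨c, hc⟩ := hs' _ hE
    exact hens c hc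
  have hq1 : q ≠ 1 := by
    rintro rfl
    obtain ⟨c, hc⟩ := hsep _ hE ⟨1, (one_smul _ _).symm⟩
    exact hens c hc
  -- rank or corank one
  have hrk : IsRk q ∨ IsRk (1 - q) := by
    refine isRk_of hq hq0 hq1 ?_
    intro a b
    obtain ⟨x, hx⟩ := h2 a
    obtain ⟨y, hy⟩ := h2 b
    have hEE : (e, q) * (e, q) = ((e, q) : Module.End L V × Module.End L V') := Prod.ext hee hq
    have m1 := (part_mem p hl hE hEE hx).1
    have m2 := (part_mem p hl hE hEE hy).2
    obtain ⟨X, hX⟩ : ∃ X : Module.End L V × Module.End L V', X = (e, q) * (x, a) * (1 - (e, q)) :=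
      ⟨_, rfl⟩
    obtain ⟨Y, hY⟩ : ∃ Y : Module.End L V × Module.End L V', Y = (1 - (e, q)) * (y, b) * (e, q) :=
      ⟨_, rfl⟩
    rw [← hX] at m1
    rw [← hY] at m2
    have m3 := hl _ (hl _ m1 _ m2) _ m1
    have hEE' : (1 - (e, q)) * (e, q) = (0 : Module.End L V × Module.End L V') := by
      rw [sub_mul, hEE, one_mul, sub_self]
    have hXX : X * X = 0 := by
      rw [hX]
      have : (e, q) * (x, a) * (1 - (e, q)) * ((e, q) * (x, a) * (1 - (e, q))) =
          (e, q) * (x, a) * ((1 - (e, q)) * (e, q)) * ((x, a) * (1 - (e, q))) := by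
        simp only [mul_assoc]
      rw [this, hEE', mul_zero, zero_mul]
    have e3 : (X * Y - Y * X) * X - X * (X * Y - Y * X) = (2 : L) • (X * Y * X) := by
      have a1 : Y * X * X = 0 := by rw [mul_assoc, hXX, mul_zero]
      have a2 : X * (X * Y) = 0 := by rw [← mul_assoc, hXX, zero_mul]
      rw [sub_mul, mul_sub, a1, a2, ← mul_assoc, two_smul]
      abel
    rw [e3] at m3
    have m4 := p.smul_mem (2⁻¹ : L) m3
    rw [smul_smul, inv_mul_cancel₀ two_ne_zero, one_smul] at m4
    obtain ⟨t, ht⟩ : ∃ t : L, (X * Y * X).1 = t • X.1 := by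
      refine ⟨φ ((x * (1 - e) * ((1 - e) * y)) v), ?_⟩
      have hX1 : X.1 = e * x * (1 - e) := by rw [hX]; rfl
      have hY1 : Y.1 = (1 - e) * y * e := by rw [hY]; rfl
      have hrk : ∀ z : Module.End L V, e * z * e = φ (z v) • e := by
        intro z
        rw [he]
        ext w
        simp [smul_smul, mul_comm]
      have e4 : (X * Y * X).1 = e * (x * (1 - e) * ((1 - e) * y)) * e * (x * (1 - e)) := by
        rw [Prod.fst_mul, Prod.fst_mul, hX1, hY1]
        have : e * x * (1 - e) * ((1 - e) * y * e) * (e * x * (1 - e)) =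
            e * (x * (1 - e) * ((1 - e) * y)) * (e * e) * (x * (1 - e)) := by
          simp only [mul_assoc]
        rw [this, hee]
      rw [e4, hrk, hX1, smul_mul_assoc, mul_assoc e x (1 - e)]
    have m5 := p.sub_mem m4 (p.smul_mem t m1)
    have m6 : ((0 : Module.End L V), (X * Y * X).2 - t • X.2) ∈ p := by
      convert m5 using 1
      refine Prod.ext ?_ rfl
      rw [Prod.fst_sub, ht, Prod.smul_fst, sub_self]
    obtain ⟨c', hc'⟩ := hs _ m6
    have hX2 : X.2 = q * a * (1 - q) := by rw [hX]; rfl
    have hY2 : Y.2 = (1 - q) * b * q := by rw [hY]; rfl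
    have hqq : (1 - q) * q = 0 := by rw [sub_mul, hq, one_mul, sub_self]
    have hXq : (1 - q) * X.2 = 0 := by
      rw [hX2, ← mul_assoc, ← mul_assoc, hqq, zero_mul, zero_mul]
    have hc0 : c' = 0 := by
      have h3 : (1 - q) * ((X * Y * X).2 - t • X.2) = (1 - q) * (c' • 1) := by rw [hc']
      rw [mul_sub, mul_smul_comm, mul_smul_comm, mul_one, hXq, smul_zero, sub_zero, Prod.snd_mul,
        Prod.snd_mul, ← mul_assoc, ← mul_assoc, hXq, zero_mul, zero_mul] at h3
      exact (smul_eq_zero.1 h3.symm).resolve_right (sub_ne_zero.2 hq1.symm)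
    refine ⟨t, ?_⟩
    rw [hc0, zero_smul] at hc'
    have h3 := sub_eq_zero.1 hc'
    rw [Prod.snd_mul, Prod.snd_mul, hX2, hY2] at h3
    exact h3
  rcases hrk with ⟨v', φ', hv', hqr⟩ | ⟨v', φ', hv', hqr⟩
  · left
    refine caseA p hl h1 h2 hs hs' hv hv' ?_ hd ?_
    · rw [← he, ← hqr]
      exact hE
    · by_contra! hno
      apply hq1
      ext z
      have h3 : z - φ' z • v' = 0 := by
        by_contra h0
        exact hno _ h0 (by simp [hv'])
      rw [hqr, LinearMap.smulRight_apply, Module.End.one_apply]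
      exact (sub_eq_zero.1 h3).symm
  · right
    have hq' : (e, q - 1) ∈ p := by
      have h3 := p.sub_mem hE h01
      convert h3 using 1
      refine Prod.ext ?_ rfl
      simp
    obtain ⟨T, hT⟩ := caseA (v' := φ') (φ' := Module.Dual.eval L V' v') (p.map (dm L V V')) (by
        rintro _ ⟨a, ha, rfl⟩ _ ⟨b, hb, rfl⟩
        rw [dm_comm]
        exact ⟨_, hl _ ha _ hb, rfl⟩) (by
        intro x
        obtain ⟨y, hy⟩ := h1 x
        exact ⟨_, ⟨_, hy, rfl⟩⟩) (by
        intro y
        obtain ⟨y', hy'⟩ := dual_surj (-y)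
        obtain ⟨x, hx⟩ := h2 y'
        refine ⟨x, ⟨_, hx, ?_⟩⟩
        refine Prod.ext rfl ?_
        change -(y'.dualMap : Module.End L (Module.Dual L V')) = y
        rw [hy']
        exact neg_neg y) (by
        rintro y ⟨⟨a, b⟩, ha, hab⟩
        have h3 : a = 0 := congrArg Prod.fst hab
        have h4 : -(b.dualMap : Module.End L (Module.Dual L V')) = y := congrArg Prod.snd hab
        subst h3
        obtain ⟨c, hc⟩ := hs _ ha
        refine ⟨-c, ?_⟩
        rw [← h4, hc]
        ext f z
        simp) (by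
        rintro x ⟨⟨a, b⟩, ha, hab⟩
        have h3 : a = x := congrArg Prod.fst hab
        have h4 : -(b.dualMap : Module.End L (Module.Dual L V')) = 0 := congrArg Prod.snd hab
        have h5 : b = 0 := by
          refine dual_inj ?_
          ext f z
          have h6 : -(f (b z)) = 0 := LinearMap.congr_fun (LinearMap.congr_fun h4 f) z
          exact neg_eq_zero.1 h6
        subst h5
        subst h3
        exact hs' _ ha) hv hv' (by
        refine ⟨_, hq', ?_⟩
        refine Prod.ext he ?_
        change -((q - 1).dualMap : Module.End L (Module.Dual L V')) = _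
        rw [← dual_rk, ← hqr]
        ext f z
        simp) hd (by
        by_contra! hno
        apply hq0
        have h3 : ∀ z, φ' z • v' = z := by
          intro z
          rw [← sub_eq_zero]
          refine (Module.forall_dual_apply_eq_zero_iff L _).1 fun f => ?_
          have h4 : f - f v' • φ' = 0 := by
            by_contra h0
            exact hno _ h0 (by simp [hv'])
          have h5 : f z - f v' * φ' z = 0 := LinearMap.congr_fun h4 z
          rw [map_sub, map_smul, smul_eq_mul, ← neg_sub, mul_comm, h5, neg_zero]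
        have h4 : (1 : Module.End L V') - q = 1 := by
          rw [hqr]
          ext z
          exact h3 z
        rw [sub_eq_self] at h4
        exact h4)
    refine ⟨T, fun x hx => ?_⟩
    obtain ⟨c, hc⟩ := hT _ ⟨x, hx, rfl⟩
    refine ⟨-c, ?_⟩
    ext z w
    have h3 : -(T z (x.2 w)) - T (x.1 z) w = c * T z w :=
      LinearMap.congr_fun (LinearMap.congr_fun hc z) w
    change T z (x.2 w) + T (x.1 z) w = -c * T z w
    linear_combination -h3

end pair

end Pool.Agent.Helper75.MT
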